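import Pool.Agent.Helper711_SMP.P23

/-!
# The Sudakov minoration principle for unconditional log-concave random vectors

There is one constant `c > 0` such that every linear image (of any dimension) of an unconditional
log-concave random vector has the property SMP(c). In particular every unconditional log-concave
random vector has it.
-/

set_option autoImplicit false

open MeasureTheory
open scoped Pointwise

namespace Pool.Agent.Results.MP_920d63_pr.UnconditionalSMP

theorem result :
    ∃ c : ℝ, 0 < c ∧
      ∀ (m : ℕ) (ν : Measure (EuclideanSpace ℝ (Fin m))), IsProbabilityMeasure ν →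
        (∀ K L : Set (EuclideanSpace ℝ (Fin m)), IsCompact K → IsCompact L →
          ∀ t : ℝ, t ∈ Set.Ioo (0 : ℝ) 1 →
            ν K ^ t * ν L ^ (1 - t) ≤ ν (t • K + (1 - t) • L)) →
        (∀ i : Fin m, ν.map (fun x : EuclideanSpace ℝ (Fin m) =>
          WithLp.toLp 2 (fun j => if j = i then -x j else x j)) = ν) →
        ∀ (n : ℕ) (T : EuclideanSpace ℝ (Fin m) →ₗ[ℝ] EuclideanSpace ℝ (Fin n)),
        ∀ p : ℝ, 1 ≤ p →
          ∀ V : Finset (EuclideanSpace ℝ (Fin n)), ∀ hV : V.Nonempty,
            Real.exp p ≤ (V.card : ℝ) →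
            ∀ A : ℝ,
              (∀ v ∈ V, ∀ w ∈ V, v ≠ w →
                A ≤ (∫ x, |@inner ℝ _ _ (v - w) x| ^ p ∂(ν.map T)) ^ (1 / p)) →
              c * A ≤
                ∫ x, V.sup' hV (fun v => V.sup' hV (fun w => @inner ℝ _ _ (v - w) x))
                  ∂(ν.map T) := by
  obtain ⟨c, hc, H⟩ := Pool.Agent.Helper711SMP.final3
  exact ⟨c, hc, fun m ν hν hB hE n T p hp V hV hcard A hA =>
    H m ν hν hB hE n T p hp V hV hcard A hA⟩

end Pool.Agent.Results.MP_920d63_pr.UnconditionalSMP
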